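import Mathlib

/-!
# The maximum size of a `5`-independent set in even cyclic groups is not monotone

`τ_±(Z_4,[1,5]) = 0 < 1 ≤ τ_±(Z_6,[1,5])` and `τ_±(Z_18,[1,5]) ≥ 2 > 1 ≥ τ_±(Z_20,[1,5])`.
-/

namespace Pool.Agent.Results.MP_8fcc33_co.NotMonotone

open Finset

/-- `A ⊆ Z_n` is `t`-independent: no integer combination of the elements of `A` whose
coefficients have absolute values summing to a number between `1` and `t` vanishes -/
def TIndep (n t : ℕ) (A : Finset (ZMod n)) : Prop :=
  ∀ c : ZMod n → ℤ, 1 ≤ ∑ a ∈ A, |c a| → ∑ a ∈ A, |c a| ≤ t → ∑ a ∈ A, c a • a ≠ 0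

/-- `τ_±(Z_n,[1,t])`: the maximum size of a `t`-independent set in `Z_n` -/
noncomputable def tau (n t : ℕ) : ℕ :=
  sSup {m : ℕ | ∃ A : Finset (ZMod n), A.card = m ∧ TIndep n t A}

lemma le_tau {n t : ℕ} [NeZero n] (A : Finset (ZMod n)) (h : TIndep n t A) :
    A.card ≤ tau n t := by
  apply le_csSup
  · refine ⟨Fintype.card (ZMod n), ?_⟩
    rintro m ⟨B, rfl, -⟩
    exact card_le_univ B
  · exact ⟨A, rfl, h⟩

lemma tau_le {n t N : ℕ} (h : ∀ A : Finset (ZMod n), TIndep n t A → A.card ≤ N) :
    tau n t ≤ N := by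
  apply csSup_le
  · refine ⟨0, ∅, rfl, ?_⟩
    intro c h1 _
    simp at h1
  · rintro m ⟨B, rfl, hB⟩
    exact h B hB

lemma tau_four : tau 4 5 ≤ 0 := by
  apply tau_le
  intro A hA
  by_contra hne
  obtain ⟨a, ha⟩ : A.Nonempty := card_pos.mp (by omega)
  apply hA (fun x => if x = a then 4 else 0)
  · rw [sum_eq_single_of_mem a ha]
    · simp
    · intro b _ hb
      simp [hb]
  · rw [sum_eq_single_of_mem a ha]
    · simp
    · intro b _ hb
      simp [hb]
  · rw [sum_eq_single_of_mem a ha]
    · have h4 : ∀ z : ZMod 4, (4 : ℤ) • z = 0 := by decide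
      simpa using h4 a
    · intro b _ hb
      simp [hb]

lemma tau_six : 1 ≤ tau 6 5 := by
  have h : TIndep 6 5 {1} := by
    intro c h1 h2
    rw [sum_singleton] at h1 h2 ⊢
    have h3 : -5 ≤ c 1 := by
      have := neg_abs_le (c 1)
      push_cast at h2
      linarith
    have h4 : c 1 ≤ 5 := by
      have := le_abs_self (c 1)
      push_cast at h2
      linarith
    generalize c 1 = x at *
    interval_cases x
    all_goals first | (exfalso; revert h1; decide) | decide
  simpa using le_tau {1} h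

lemma tau_eighteen : 2 ≤ tau 18 5 := by
  have h15 : (1 : ZMod 18) ≠ 5 := by decide
  have h : TIndep 18 5 {1, 5} := by
    intro c h1 h2
    rw [sum_pair h15] at h1 h2 ⊢
    push_cast at h2
    have a1 := abs_nonneg (c 1)
    have a5 := abs_nonneg (c 5)
    have h3 : -5 ≤ c 1 := by
      have := neg_abs_le (c 1)
      linarith
    have h4 : c 1 ≤ 5 := by
      have := le_abs_self (c 1)
      linarith
    have h5 : -5 ≤ c 5 := by
      have := neg_abs_le (c 5)
      linarith
    have h6 : c 5 ≤ 5 := by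
      have := le_abs_self (c 5)
      linarith
    generalize c 1 = x at *
    generalize c 5 = y at *
    interval_cases x <;> interval_cases y
    all_goals first | (exfalso; revert h1; decide) | (exfalso; revert h2; decide) | decide
  have := le_tau {1, 5} h
  rwa [card_pair h15] at this

/-- any two elements of `Z_20` satisfy a relation of weight at most `5` -/
lemma pair_twenty : ∀ a b : ZMod 20, ∃ x ∈ Finset.range 11, ∃ y ∈ Finset.range 11,
    1 ≤ |(x : ℤ) - 5| + |(y : ℤ) - 5| ∧ |(x : ℤ) - 5| + |(y : ℤ) - 5| ≤ 5 ∧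
      ((x : ℤ) - 5) • a + ((y : ℤ) - 5) • b = 0 := by
  decide

lemma tau_twenty : tau 20 5 ≤ 1 := by
  apply tau_le
  intro A hA
  by_contra hne
  obtain ⟨a, ha, b, hb, hab⟩ := one_lt_card.mp (by omega : 1 < A.card)
  obtain ⟨x, -, y, -, h1, h2, h3⟩ := pair_twenty a b
  have hsub : ({a, b} : Finset (ZMod 20)) ⊆ A := by
    intro z hz
    simp only [mem_insert, mem_singleton] at hz
    rcases hz with rfl | rfl
    · exact ha
    · exact hb
  have hba : b ≠ a := Ne.symm hab
  have key : ∀ {M : Type} [AddCommMonoid M] (F : ZMod 20 → ℤ → M), (∀ z, F z 0 = 0) →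
      ∑ z ∈ A, F z (if z = a then (x : ℤ) - 5 else if z = b then (y : ℤ) - 5 else 0) =
        F a ((x : ℤ) - 5) + F b ((y : ℤ) - 5) := by
    intro M _ F hF
    rw [← sum_subset hsub, sum_pair hab]
    · simp [hba]
    · intro z _ hz
      simp only [mem_insert, mem_singleton, not_or] at hz
      rw [if_neg hz.1, if_neg hz.2, hF]
  apply hA (fun z => if z = a then (x : ℤ) - 5 else if z = b then (y : ℤ) - 5 else 0)
  · rw [key (fun _ n => |n|) (fun _ => abs_zero)]
    exact h1
  · rw [key (fun _ n => |n|) (fun _ => abs_zero)]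
    exact_mod_cast h2
  · rw [key (fun z n => n • z) (fun z => zero_smul ℤ z)]
    exact h3

/-- For `t = 5` the sequence `τ_±(Z_n,[1,t])`, indexed by the even positive integers
`n = 2 (k + 1)`, is neither non-decreasing nor non-increasing. -/
theorem result : ¬ Monotone (fun k : ℕ => tau (2 * (k + 1)) 5) ∧
    ¬ Antitone (fun k : ℕ => tau (2 * (k + 1)) 5) := by
  constructor
  · intro h
    have h1 := h (show 8 ≤ 9 by norm_num)
    have h2 := tau_eighteen
    have h3 := tau_twenty
    change tau 18 5 ≤ tau 20 5 at h1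
    omega
  · intro h
    have h1 := h (show 1 ≤ 2 by norm_num)
    have h2 := tau_four
    have h3 := tau_six
    change tau 6 5 ≤ tau 4 5 at h1
    omega

end Pool.Agent.Results.MP_8fcc33_co.NotMonotone
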